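import Pool.Agent.Q181.XR.Main

set_option autoImplicit false

open MeasureTheory Filter Topology

namespace Pool.Agent.Results.MP_2e5000_an.WeaklyMixingToZero

open Pool.Agent.Q181.XR

/-- There is a weakly mixing shift-invariant Borel probability measure `μ ≠ δ_0` on `{0,1}^ℤ` with
`F^n(μ) → δ_0` weak-*, where `F` is the XOR automaton. -/
theorem result : ∃ μ : Measure X, IsProbabilityMeasure μ ∧ ShiftInvariant μ ∧
    WeaklyMixing μ ∧ μ ≠ Measure.dirac 0 ∧
    ∀ f : C(X, ℝ), Tendsto (fun n => ∫ x, f x ∂(μ.map (F^[n]))) atTop (𝓝 (f 0)) :=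
  exists_measure

end Pool.Agent.Results.MP_2e5000_an.WeaklyMixingToZero
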